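import Mathlib
import Pool.Agent.H6.Parallelotope2

namespace Pool.Agent.Results.MP_bec8f7_co.FailsFromFive

theorem result (d : ℕ) (hd : 5 ≤ d) :
    ∃ C : Set (EuclideanSpace ℝ (Fin d)), IsCompact C ∧ Convex ℝ C ∧ (interior C).Nonempty ∧
      ¬ ∃ (a : EuclideanSpace ℝ (Fin d)) (v : Fin d → EuclideanSpace ℝ (Fin d)),
        LinearIndependent ℝ v ∧ ∀ s : Finset (Fin d), a + ∑ i ∈ s, v i ∈ frontier C :=
  Pool.Agent.H6.Parallelotope.fails d hd

end Pool.Agent.Results.MP_bec8f7_co.FailsFromFive
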